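import Pool.Agent.N303.KT.Arr
import Pool.Agent.N298.HS.StmA

/-!
# Orders of central elements of Kazhdan subgroups of sofic groups
-/

set_option autoImplicit false

namespace Pool.Agent.N303.KT

open Finset Filter
open Pool.Agent.N303.KS
open Pool.Agent.H21R2 (IsSofic)
open Pool.Agent.W661.RC (HasT)

noncomputable section

/-- Sofic approximations in terms of words, several nontrivial words. -/
theorem sofic_words' {P : Type} [Group P] (hP : IsSofic P) (E E' : Finset (FreeGroup P))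
    (hE : ∀ r ∈ E, cn P r = 1) (hE' : ∀ v ∈ E', cn P v ≠ 1) {ε : ℝ} (hε : 0 < ε) :
    ∃ (d : ℕ) (_ : 0 < d) (Ψ : FreeGroup P →* Equiv.Perm (Fin d)),
      (ct fun y => (∃ r ∈ E, Ψ r y ≠ y) ∨ ∃ v ∈ E', Ψ v y = y) ≤ ε * d := by
  classical
  haveI := sF_neBot hP
  set η : ℝ := ε / (E.card + E'.card + 1) with hη
  have hη0 : 0 < η := by positivity
  have h1 : ∀ᶠ x in sF P, ∀ r ∈ E, (ct fun y => Ps x r y ≠ y) ≤ η * x.d := by
    rw [eventually_all_finset]
    exact fun r hr => sv_rel (hE r hr) hη0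
  have h1' : ∀ᶠ x in sF P, ∀ r ∈ E', (ct fun y => Ps x r y = y) ≤ η * x.d := by
    rw [eventually_all_finset]
    exact fun r hr => sv_nrel (hE' r hr) hη0
  obtain ⟨x, hx1, hx2⟩ := (h1.and h1').exists
  refine ⟨x.d, x.pos, Ps x, ?_⟩
  have h2 : (ct fun y => (∃ r ∈ E, Ps x r y ≠ y) ∨ ∃ v ∈ E', Ps x v y = y) ≤
      (ct fun y => ∃ r ∈ E, Ps x r y ≠ y) + ct fun y => ∃ v ∈ E', Ps x v y = y :=
    ct_le_add fun y hy => hy
  have h3 : (ct fun y => ∃ r ∈ E, Ps x r y ≠ y) ≤ ∑ r ∈ E, ct fun y => Ps x r y ≠ y :=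
    ct_le_sum E _ fun y hy => hy
  have h3' : (ct fun y => ∃ r ∈ E', Ps x r y = y) ≤ ∑ r ∈ E', ct fun y => Ps x r y = y :=
    ct_le_sum E' _ fun y hy => hy
  have h4 : (∑ r ∈ E, ct fun y => Ps x r y ≠ y) ≤ E.card * (η * x.d) := by
    rw [← nsmul_eq_mul]
    exact sum_le_card_nsmul _ _ _ hx1
  have h4' : (∑ r ∈ E', ct fun y => Ps x r y = y) ≤ E'.card * (η * x.d) := by
    rw [← nsmul_eq_mul]
    exact sum_le_card_nsmul _ _ _ hx2
  have h5 : (E.card : ℝ) * (η * x.d) + E'.card * (η * x.d) + η * x.d = ε * x.d := by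
    rw [hη]
    field_simp
  have h6 : 0 ≤ η * x.d := by positivity
  linarith

theorem t_ord : Pool.Agent.N298.HS.S_ORD := by
  classical
  intro P _ hP N hT FL FG hFL hFG δ hδ
  obtain ⟨k, γ, hγ⟩ := Pool.Agent.N303.KQ.exists_free hT
  -- words
  have hu : ∀ l : P, ∃ w : FreeGroup (Fin k), l ∈ N → ((γ w : N) : P) = l := by
    intro l
    by_cases hl : l ∈ N
    · obtain ⟨w, hw⟩ := hγ ⟨l, hl⟩
      exact ⟨w, fun _ => by rw [hw]⟩
    · exact ⟨1, fun h => absurd h hl⟩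
  have hW : ∀ (a : P) (s : Fin k), ∃ w : FreeGroup (Fin k), a ∈ FG →
      ((γ (FreeGroup.of s) : N) : P) * a = a * (γ w : N) := by
    intro a s
    by_cases ha : a ∈ FG
    · have h2 : a⁻¹ * (γ (FreeGroup.of s) : N) * a ∈ N := by
        rw [hFG a ha]
        have h3 : a * (a⁻¹ * (γ (FreeGroup.of s) : N) * a) * a⁻¹ = (γ (FreeGroup.of s) : N) := by
          group
        rw [h3]
        exact (γ (FreeGroup.of s)).2
      obtain ⟨w, hw⟩ := hγ ⟨_, h2⟩
      refine ⟨w, fun _ => ?_⟩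
      rw [hw]
      simp only
      group
    · exact ⟨1, fun h => absurd h ha⟩
  have hW' : ∀ (a : P) (s : Fin k), ∃ w : FreeGroup (Fin k), a ∈ FG →
      ((γ (FreeGroup.of s) : N) : P) * a⁻¹ = a⁻¹ * (γ w : N) := by
    intro a s
    by_cases ha : a ∈ FG
    · have h2 : a * (γ (FreeGroup.of s) : N) * a⁻¹ ∈ N := (hFG a ha _).1 (γ (FreeGroup.of s)).2
      obtain ⟨w, hw⟩ := hγ ⟨_, h2⟩
      refine ⟨w, fun _ => ?_⟩
      rw [hw]
      simp only
      group
    · exact ⟨1, fun h => absurd h ha⟩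
  choose u hu using hu
  choose W hW using hW
  choose W' hW' using hW'
  -- lengths
  choose len hlen using fun w : FreeGroup (Fin k) => word_bd w
  set 𝒲 : Finset (FreeGroup (Fin k)) := ((FG ×ˢ (univ : Finset (Fin k))).image fun p => W p.1 p.2) ∪
    ((FG ×ˢ (univ : Finset (Fin k))).image fun p => W' p.1 p.2) ∪
    ((univ : Finset (Fin k)).image fun s => FreeGroup.of s) ∪
    (FL.image u) with h𝒲
  set Λ : ℝ := 1 + ∑ w ∈ 𝒲, (len w : ℝ) with hΛ
  have hΛ0 : (0 : ℝ) ≤ ∑ w ∈ 𝒲, (len w : ℝ) := sum_nonneg fun _ _ => Nat.cast_nonneg _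
  have hΛ1 : 1 ≤ Λ := by rw [hΛ]; linarith
  have hlenΛ : ∀ w ∈ 𝒲, ∀ (B : Type) [Fintype B] (ρ : FreeGroup (Fin k) →* Equiv.Perm B)
      (p : B → Prop), (ct fun a => p a ∧ ¬ p (ρ w a)) ≤ Λ * bd ρ p := by
    intro w hw B _ ρ p
    refine (hlen w B ρ p).trans (mul_le_mul_of_nonneg_right ?_ (bd_nonneg ρ p))
    have h1 : (len w : ℝ) ≤ ∑ w ∈ 𝒲, (len w : ℝ) :=
      single_le_sum (f := fun w => (len w : ℝ)) (fun _ _ => Nat.cast_nonneg _) hw
    rw [hΛ]; linarith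
  -- constants
  set κ : ℝ := min δ 1 / (1000 * (FG.card + 1)) with hκ
  have hm0 : 0 < min δ 1 := lt_min hδ one_pos
  have hc0 : (0 : ℝ) ≤ FG.card := Nat.cast_nonneg _
  have hκ0 : 0 < κ := by rw [hκ]; positivity
  have hκc : κ * (1000 * (FG.card + 1)) = min δ 1 := by
    rw [hκ]; field_simp
  have hκ1 : κ ≤ 1 / 1000 := by
    have h1 := min_le_right δ 1
    nlinarith
  have hκδ : κ * (10 * (FG.card + 1)) ≤ δ := by
    have h1 := min_le_left δ 1
    nlinarith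
  obtain ⟨τ, hτ0, hτκ, hsys⟩ := exists_sys γ hT hγ hκ0 (show κ ≤ 1 / 100 by linarith)
  set τ₁ : ℝ := κ * τ / ((k + 2) * (1 + Λ)) with hτ₁
  have hk0 : (0 : ℝ) ≤ k := Nat.cast_nonneg k
  have hden : 0 < ((k : ℝ) + 2) * (1 + Λ) := by positivity
  have hτ₁0 : 0 < τ₁ := by rw [hτ₁]; positivity
  have hnum : τ₁ * ((k + 2) * (1 + Λ)) = κ * τ := by
    rw [hτ₁]; field_simp
  have hn : Num k κ τ τ₁ Λ := ⟨hκ0, by linarith, hτ0, hτκ, hτ₁0.le, hΛ1, hnum.le⟩
  obtain ⟨ε₀, hε₀, hε₀τ, Rel, hRel, hsys⟩ := hsys τ₁ hτ₁0 (by linarith [hn.a3])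
  -- words in the free group on `P`
  set θ : FreeGroup (Fin k) →* FreeGroup P :=
    FreeGroup.lift fun s => FreeGroup.of ((γ (FreeGroup.of s) : N) : P) with hθ
  have hcθ : ∀ w, cn P (θ w) = ((γ w : N) : P) := by
    intro w
    have h1 : (cn P).comp θ = N.subtype.comp γ := by
      ext s
      simp [hθ]
    exact DFunLike.congr_fun h1 w
  have hcof : ∀ q : P, cn P (FreeGroup.of q) = q := by
    intro q
    simp
  have hcu : ∀ l ∈ N, cn P (θ (u l)) = l := fun l hl => by rw [hcθ, hu l hl]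
  have hFLN : ∀ l ∈ FL, l ∈ N := fun l hl => (hFL l hl).1
  set E : Finset (FreeGroup P) := Rel.image θ ∪
    ((FG ×ˢ (univ : Finset (Fin k))).image fun p =>
      (FreeGroup.of p.1 * θ (W p.1 p.2))⁻¹ * (θ (FreeGroup.of p.2) * FreeGroup.of p.1)) ∪
    ((FG ×ˢ (univ : Finset (Fin k))).image fun p =>
      ((FreeGroup.of p.1)⁻¹ * θ (W' p.1 p.2))⁻¹ * (θ (FreeGroup.of p.2) * (FreeGroup.of p.1)⁻¹)) ∪
    ((FL ×ˢ (univ : Finset (Fin k))).image fun p =>
      (θ (u p.1) * θ (FreeGroup.of p.2))⁻¹ * (θ (FreeGroup.of p.2) * θ (u p.1))) ∪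
    ((FL ×ˢ FL).image fun p => (θ (u (p.1 * p.2)))⁻¹ * (θ (u p.1) * θ (u p.2))) ∪
    ((FG ×ˢ FL).image fun p =>
      (FreeGroup.of p.1 * θ (u p.2))⁻¹ * (θ (u (p.1 * p.2 * p.1⁻¹)) * FreeGroup.of p.1)) with hE
  have hEc : ∀ r ∈ E, cn P r = 1 := by
    intro r hr
    rw [hE] at hr
    simp only [mem_union, mem_image, mem_product, mem_univ, and_true] at hr
    rcases hr with ((((⟨w, hw, rfl⟩ | ⟨p, hp, rfl⟩) | ⟨p, hp, rfl⟩) | ⟨p, hp, rfl⟩) |
      ⟨p, hp, rfl⟩) | ⟨p, hp, rfl⟩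
    · rw [hcθ, hRel w hw]; rfl
    · rw [map_mul, map_inv, inv_mul_eq_one, map_mul, map_mul, hcθ, hcθ, hcof]
      exact (hW p.1 p.2 hp).symm
    · rw [map_mul, map_inv, inv_mul_eq_one, map_mul, map_mul, map_inv, hcθ, hcθ, hcof]
      exact (hW' p.1 p.2 hp).symm
    · rw [map_mul, map_inv, inv_mul_eq_one, map_mul, map_mul, hcu _ (hFLN _ hp), hcθ]
      exact (hFL p.1 hp).2 _ (γ (FreeGroup.of p.2)).2
    · rw [map_mul, map_inv, inv_mul_eq_one, map_mul, hcu _ (hFLN _ hp.1), hcu _ (hFLN _ hp.2),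
        hcu _ (N.mul_mem (hFLN _ hp.1) (hFLN _ hp.2))]
    · rw [map_mul, map_inv, inv_mul_eq_one, map_mul, map_mul, hcu _ (hFLN _ hp.2), hcof,
        hcu _ ((hFG _ hp.1 _).1 (hFLN _ hp.2)), inv_mul_cancel_right]
  set E' : Finset (FreeGroup P) := (FL.filter fun l => l ≠ 1).image fun l => θ (u l) with hE'
  have hE'c : ∀ v ∈ E', cn P v ≠ 1 := by
    intro v hv
    rw [hE', mem_image] at hv
    obtain ⟨l, hl, rfl⟩ := hv
    rw [mem_filter] at hl
    rw [hcu _ (hFLN _ hl.1)]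
    exact hl.2
  obtain ⟨d, hd, Ψ, hct⟩ := sofic_words' hP E E' hEc hE'c hε₀
  set ρ : FreeGroup (Fin k) →* Equiv.Perm (Fin d) := Ψ.comp θ with hρ
  set Z : Fin d → Prop := fun y => (∃ r ∈ E, Ψ r y ≠ y) ∨ ∃ v ∈ E', Ψ v y = y with hZ
  have hZc : ct Z ≤ ε₀ * Fintype.card (Fin d) := by
    rw [Fintype.card_fin]; exact hct
  have hZE : ∀ r ∈ E, ∀ x, ¬ Z x → Ψ r x = x := by
    intro r hr x hx
    by_contra h
    exact hx (Or.inl ⟨r, hr, h⟩)
  have hZE2 : ∀ w1 w2 : FreeGroup P, w2⁻¹ * w1 ∈ E → ∀ x, ¬ Z x → Ψ w1 x = Ψ w2 x := by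
    intro w1 w2 hr x hx
    have h1 := hZE _ hr x hx
    rw [map_mul, map_inv, Equiv.Perm.mul_apply, Equiv.Perm.inv_eq_iff_eq] at h1
    exact h1
  obtain ⟨L, hS⟩ := hsys (Fin d) ρ Z hZc (by
    intro w hw x hx
    refine hZE (θ w) ?_ x hx
    rw [hE]
    simp only [mem_union, mem_image, mem_product, mem_univ, and_true]
    exact Or.inl (Or.inl (Or.inl (Or.inl (Or.inl ⟨w, hw, rfl⟩)))))
  obtain ⟨Y, hY⟩ := exists_reps hS hn.κ1 hτ0 (by linarith [hn.a3])
  have hd0 : (0 : ℝ) < Fintype.card (Fin d) := by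
    rw [Fintype.card_fin]; exact_mod_cast hd
  have hZ1 : ct Z ≤ τ₁ * Fintype.card (Fin d) :=
    hZc.trans (mul_le_mul_of_nonneg_right hε₀τ hd0.le)
  set σ : P → Equiv.Perm (Fin d) := fun q => Ψ (FreeGroup.of q) with hσ
  have hOk : ∀ a ∈ FG, Ok ρ Z Λ (σ a) := by
    intro a ha
    refine ⟨W a, W' a, ?_, ?_, ?_, ?_⟩
    · intro s B _ ρ' p
      refine hlenΛ (W a s) ?_ B ρ' p
      rw [h𝒲]
      simp only [mem_union, mem_image, mem_product, mem_univ, and_true, true_and]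
      exact Or.inl (Or.inl (Or.inl ⟨(a, s), ha, rfl⟩))
    · intro s B _ ρ' p
      refine hlenΛ (W' a s) ?_ B ρ' p
      rw [h𝒲]
      simp only [mem_union, mem_image, mem_product, mem_univ, and_true, true_and]
      exact Or.inl (Or.inl (Or.inr ⟨(a, s), ha, rfl⟩))
    · intro s x hx
      have h1 := hZE2 (θ (FreeGroup.of s) * FreeGroup.of a) (FreeGroup.of a * θ (W a s)) (by
        rw [hE]
        simp only [mem_union, mem_image, mem_product, mem_univ, and_true]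
        exact Or.inl (Or.inl (Or.inl (Or.inl (Or.inr ⟨(a, s), ha, rfl⟩))))) x hx
      rw [map_mul, map_mul] at h1
      exact h1
    · intro s x hx
      have h1 := hZE2 (θ (FreeGroup.of s) * (FreeGroup.of a)⁻¹) ((FreeGroup.of a)⁻¹ * θ (W' a s))
        (by
        rw [hE]
        simp only [mem_union, mem_image, mem_product, mem_univ, and_true]
        exact Or.inl (Or.inl (Or.inl (Or.inr ⟨(a, s), ha, rfl⟩)))) x hx
      rw [map_mul, map_mul, map_inv] at h1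
      exact h1
  have hwof : WB Λ fun s : Fin k => FreeGroup.of s := by
    intro s B _ ρ' p
    refine hlenΛ (FreeGroup.of s) ?_ B ρ' p
    rw [h𝒲]
    simp only [mem_union, mem_image, mem_product, mem_univ, and_true, true_and]
    exact Or.inl (Or.inr ⟨s, rfl⟩)
  have hwu : ∀ l ∈ FL, ∀ p : Fin d → Prop,
      (ct fun x => p x ∧ ¬ p (ρ (u l) x)) ≤ Λ * bd ρ p := by
    intro l hl p
    refine hlenΛ (u l) ?_ _ ρ p
    rw [h𝒲]
    simp only [mem_union, mem_image, mem_product, mem_univ, and_true, true_and]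
    exact Or.inr ⟨l, hl, rfl⟩
  have hTwu : ∀ l ∈ FL, Tw ρ Z (fun s => FreeGroup.of s) (ρ (u l)) := by
    intro l hl s x hx
    have h1 := hZE2 (θ (FreeGroup.of s) * θ (u l)) (θ (u l) * θ (FreeGroup.of s)) (by
      rw [hE]
      simp only [mem_union, mem_image, mem_product, mem_univ, and_true]
      exact Or.inl (Or.inl (Or.inr ⟨(l, s), hl, rfl⟩))) x hx
    rw [map_mul, map_mul] at h1
    exact h1
  have hmulu : ∀ l ∈ FL, ∀ l' ∈ FL, ∀ x, ¬ Z x → ρ (u l) (ρ (u l') x) = ρ (u (l * l')) x := by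
    intro l hl l' hl' x hx
    have h1 := hZE2 (θ (u l) * θ (u l')) (θ (u (l * l'))) (by
      rw [hE]
      simp only [mem_union, mem_image, mem_product, mem_univ, and_true]
      exact Or.inl (Or.inr ⟨(l, l'), ⟨hl, hl'⟩, rfl⟩)) x hx
    rw [map_mul] at h1
    exact h1
  have hconj : ∀ g ∈ FG, ∀ l ∈ FL, ∀ x, ¬ Z x →
      ρ (u (g * l * g⁻¹)) (σ g x) = σ g (ρ (u l) x) := by
    intro g hg l hl x hx
    have h1 := hZE2 (θ (u (g * l * g⁻¹)) * FreeGroup.of g) (FreeGroup.of g * θ (u l)) (by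
      rw [hE]
      simp only [mem_union, mem_image, mem_product, mem_univ, and_true]
      exact Or.inr ⟨(g, l), ⟨hg, hl⟩, rfl⟩) x hx
    rw [map_mul, map_mul] at h1
    exact h1
  have hneu : ∀ l ∈ FL, l ≠ 1 → ∀ x, ¬ Z x → ρ (u l) x ≠ x := by
    intro l hl hl1 x hx h
    apply hx
    right
    refine ⟨θ (u l), ?_, h⟩
    rw [hE', mem_image]
    exact ⟨l, mem_filter.2 ⟨hl, hl1⟩, rfl⟩
  -- the permutations
  have hF : ∀ (i : Fin d) (l : P), ∃ φ : Equiv.Perm Y, l ∈ FL → IsF κ L Y i (ρ (u l)) φ := by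
    intro i l
    by_cases hl : l ∈ FL
    · obtain ⟨φ, hφ⟩ := exists_F hY hS hn hwof (hwu l hl) (hTwu l hl) i
      exact ⟨φ, fun _ => hφ⟩
    · exact ⟨1, fun h => absurd h hl⟩
  choose F hF using hF
  choose φ hφ using fun q : P => exists_perm hY hS hn (σ q)
  set Pg : P → Fin d → Prop := fun g x =>
    ¬ ∃ i j, L x = some i ∧ Mv κ L (σ g) i j ∧ L (σ g x) = some j with hPg
  have hsum : ∑ i, sz L i ≤ Fintype.card (Fin d) := by
    rw [sum_sz]
    have := ct_nonneg fun x => L x = none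
    linarith
  have hPgc : ∀ g ∈ FG, ct (Pg g) ≤ 10 * κ * Fintype.card (Fin d) := by
    intro g hg
    obtain ⟨w, w', hw, hw', hg1, hg2⟩ := hOk g hg
    have h1 := moves hS hn.κ0 hn.κ1 hn.τ0 hZ1 (by linarith [hn.Λ1]) hw hw' hn.a2 hn.τ₁0 hg1 hg2
      (fun i => ¬ ∃ j, Mv κ L (σ g) i j) (fun i hi => hi)
    rw [ct_fiber (Pg g) L, Fintype.sum_option]
    have h2 : (ct fun x => Pg g x ∧ L x = none) ≤ κ * Fintype.card (Fin d) :=
      (ct_mono fun x hx => hx.2).trans hS.cov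
    have h3 : ∀ i, (ct fun x => Pg g x ∧ L x = some i) ≤
        κ * sz L i + if ¬ ∃ j, Mv κ L (σ g) i j then sz L i else 0 := by
      intro i
      have hi := sz_nonneg L i
      by_cases hm : ∃ j, Mv κ L (σ g) i j
      · rw [if_neg (not_not.2 hm), add_zero]
        obtain ⟨j, hj⟩ := hm
        have h4 := ct_split (fun x => L x = some i) (fun x => L (σ g x) = some j)
        have h5 := hj.le1
        have h6 : (ct fun x => Pg g x ∧ L x = some i) ≤
            ct fun x => L x = some i ∧ ¬ L (σ g x) = some j :=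
          ct_mono fun x hx => ⟨hx.2, fun h => hx.1 ⟨i, j, hx.2, hj, h⟩⟩
        unfold ov at h5
        unfold sz at *
        linarith
      · rw [if_pos hm]
        have h4 : (ct fun x => Pg g x ∧ L x = some i) ≤ sz L i := ct_mono fun x hx => hx.2
        have h5 : 0 ≤ κ * sz L i := by positivity
        linarith
    have h4 : ∑ i, (ct fun x => Pg g x ∧ L x = some i) ≤
        κ * Fintype.card (Fin d) + 8 * κ * Fintype.card (Fin d) := by
      refine (sum_le_sum fun i _ => h3 i).trans ?_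
      rw [sum_add_distrib, ← mul_sum, ← sum_filter]
      exact add_le_add (mul_le_mul_of_nonneg_left hsum hκ0.le) h1
    linarith
  refine ⟨d, hd, σ, Equiv.Perm Y, inferInstance, inferInstance,
    fun x l => (L x).elim 1 fun i => F i l, fun x => L x = none ∨ ∃ g ∈ FG, Pg g x, ?_, ?_⟩
  · have h1 : (ct fun x => L x = none ∨ ∃ g ∈ FG, Pg g x) ≤ (ct fun x => L x = none) +
        ct fun x => ∃ g ∈ FG, Pg g x := ct_le_add fun x hx => hx
    have h2 : (ct fun x => ∃ g ∈ FG, Pg g x) ≤ ∑ g ∈ FG, ct (Pg g) := ct_le_sum FG _ fun x hx => hx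
    have h3 : ∑ g ∈ FG, ct (Pg g) ≤ FG.card * (10 * κ * Fintype.card (Fin d)) := by
      rw [← nsmul_eq_mul]
      exact sum_le_card_nsmul _ _ _ hPgc
    have h4 := hS.cov
    have h5 : κ * (10 * (FG.card + 1)) * Fintype.card (Fin d) ≤ δ * Fintype.card (Fin d) :=
      mul_le_mul_of_nonneg_right hκδ hd0.le
    have h6 : κ * (10 * (FG.card + 1)) * Fintype.card (Fin d) =
        FG.card * (10 * κ * Fintype.card (Fin d)) + 10 * (κ * Fintype.card (Fin d)) := by ring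
    have h7 : 0 ≤ κ * Fintype.card (Fin d) := by positivity
    rw [Fintype.card_fin] at *
    linarith
  · intro x hx
    simp only [not_or, not_exists, not_and] at hx
    obtain ⟨hx1, hx2⟩ := hx
    obtain ⟨i, hi⟩ := Option.ne_none_iff_exists'.1 hx1
    have hpos : 0 < sz L i := lt_of_lt_of_le one_pos (ct_pos' (p := fun x => L x = some i) hi)
    refine ⟨fun a ha b hb hab => ?_, fun a ha ha1 => ?_, fun g hg l hl hgl => ?_⟩
    · simp only [hi, Option.elim_some]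
      exact isF_mul hY hS hn (hF i a ha) (hF i b hb) (hF i (a * b) hab) (hmulu a ha b hb)
    · simp only [hi, Option.elim_some]
      exact isF_ne hY hS hn hpos (hF i a ha) (hneu a ha ha1)
    · have h1 := hx2 g hg
      rw [hPg] at h1
      simp only [not_not] at h1
      obtain ⟨i', j, h2, h3, h4⟩ := h1
      have h5 : i' = i := by
        rw [hi, Option.some.injEq] at h2
        exact h2.symm
      subst h5
      simp only [h4, hi, Option.elim_some]
      rw [isF_conj hY hS hn (hOk g hg) h3 (hF i' l hl) (hF j _ hgl) (hφ g) (hconj g hg l hl)]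
      exact orderOf_conj' _ _

end

end Pool.Agent.N303.KT
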