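import Pool.Agent.N303.KS.Cnt
import Pool.Agent.H21R2.Defs
import Pool.Agent.W661.RC.Stm2

/-!
# Centres of Kazhdan normal subgroups of sofic groups: statements
-/

set_option autoImplicit false

namespace Pool.Agent.N303.KT

open Finset
open Pool.Agent.H21R2 (IsSofic)
open Pool.Agent.W661.RC (HasT)
open Pool.Agent.N303.KS (ct)

/-- **Theorem A.** -/
def ThmA : Prop :=
  ∀ (P : Type) [Group P] (N : Subgroup P), N.Normal → IsSofic P → HasT N →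
    ∀ A B : Finset P, (∀ l ∈ A, l ∈ N ∧ ∀ n ∈ N, n * l = l * n) → ∀ δ : ℝ, 0 < δ →
      ∃ (V Q : Type) (_ : Fintype V) (_ : Nonempty V) (_ : Group Q) (_ : Finite Q)
        (σ : P → Equiv.Perm V) (f : V → P → Q) (Bad : V → Prop),
        ct Bad ≤ δ * Fintype.card V ∧
        ∀ x, ¬ Bad x →
          (∀ l ∈ A, ∀ l' ∈ A, l * l' ∈ A → f x (l * l') = f x l * f x l') ∧
          (∀ l ∈ A, l ≠ 1 → f x l ≠ 1) ∧
          ∀ g ∈ B, ∀ l ∈ A, g * l * g⁻¹ ∈ A →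
            orderOf (f (σ g x) (g * l * g⁻¹)) = orderOf (f x l)

/-- **Theorem B.** -/
def ThmB : Prop :=
  ∀ (P : Type) [Group P] (N : Subgroup P), N.Normal → HasT N →
    ∀ (p : ℕ), p.Prime → ∀ (e₁ e₂ : P) (c y₁ y₂ : ℕ → P) (a g : P),
      (e₁ ∈ N ∧ ∀ n ∈ N, n * e₁ = e₁ * n) → (e₂ ∈ N ∧ ∀ n ∈ N, n * e₂ = e₂ * n) →
      (∀ k, c k ∈ N ∧ ∀ n ∈ N, n * c k = c k * n) →
      c 0 = 1 → c 1 ≠ 1 → (∀ k, c (k + 1) ^ p = c k) →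
      (∀ k, y₁ k * e₁ * (y₁ k)⁻¹ = e₁ * c k) → (∀ k, y₂ k * e₂ * (y₂ k)⁻¹ = e₂ * c k) →
      a * e₁ * a⁻¹ = e₂ → a * e₂ * a⁻¹ = (e₁ * e₂)⁻¹ →
      g * e₁ * g⁻¹ = e₁ ^ p → g * e₂ ^ p * g⁻¹ = e₂ → ¬ IsSofic P

/-- **Theorem B from Theorem A.** -/
def BFromA : Prop := ThmA → ThmB

end Pool.Agent.N303.KT
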