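import Pool.Agent.N303.KS.Crt
import Pool.Agent.N303.KS.App
import Pool.Agent.N303.KQ.FG
import Pool.Agent.N303.KT.Stm

/-!
# The vertex groups of the groupoid of arrows
-/

set_option autoImplicit false

namespace Pool.Agent.N303.KT

open Finset
open Pool.Agent.N303.KS

noncomputable section

variable {V : Type} [Fintype V] {k : ℕ}
variable {ρ : FreeGroup (Fin k) →* Equiv.Perm V} {Z : V → Prop} {κ τ τ₁ Λ : ℝ}
  {L : V → Option V} {Y : Finset (AD V)}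

/-- **The square rule.** -/
theorem ar_sq (hY : Rep ρ κ τ τ₁ L Y) (hS : Sys ρ Z κ τ τ₁ L) (hn : Num k κ τ τ₁ Λ)
    {α₁ α₂ β₁ β₂ γ₁ γ₂ δ₁ δ₂ : Equiv.Perm V}
    (e1 : ∀ x, ¬ Z x → α₁ (β₁ x) = γ₁ (δ₁ x)) (e2 : ∀ x, ¬ Z x → α₂ (β₂ x) = γ₂ (δ₂ x))
    {a b1 b2 c1 c2 : AD V} (ha : a ∈ Y) (hb2 : b2 ∈ Y) (hc2 : c2 ∈ Y)
    (r1 : AR κ L β₁ β₂ a b1) (r2 : AR κ L α₁ α₂ b1 b2)
    (r3 : AR κ L δ₁ δ₂ a c1) (r4 : AR κ L γ₁ γ₂ c1 c2) : b2 = c2 := by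
  apply hY.eq_of hb2 hc2
  have f1 := fl_comp (pp α₁ α₂) (pp β₁ β₂) a.2.2 b1.2.2 b2.2.2
  have f2 : fl (pp α₁ α₂ * pp β₁ β₂) a.2.2 c2.2.2 ≤
      (ct fun p => a.2.2 p ∧ (Z p.1 ∨ Z p.2)) + fl (pp γ₁ γ₂ * pp δ₁ δ₂) a.2.2 c2.2.2 := by
    refine ct_le_add fun p hp => ?_
    by_cases hz1 : Z p.1
    · exact Or.inl ⟨hp.1, Or.inl hz1⟩
    · by_cases hz2 : Z p.2
      · exact Or.inl ⟨hp.1, Or.inr hz2⟩
      · refine Or.inr ⟨hp.1, fun h => hp.2 ?_⟩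
        have h4 : (pp α₁ α₂ * pp β₁ β₂) p = (α₁ (β₁ p.1), α₂ (β₂ p.2)) := rfl
        have h5 : (pp γ₁ γ₂ * pp δ₁ δ₂) p = (γ₁ (δ₁ p.1), γ₂ (δ₂ p.2)) := rfl
        rw [h4, e1 _ hz1, e2 _ hz2, ← h5]
        exact h
  have f3 := fl_comp (pp γ₁ γ₂) (pp δ₁ δ₂) a.2.2 c1.2.2 c2.2.2
  have f5 := ct_Z hY hS hn ha
  have f6 := overlap (pp α₁ α₂ * pp β₁ β₂) a.2.2 b2.2.2 c2.2.2
  have g1 := r1.cl
  have g2 := r2.cl
  have g3 := r3.cl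
  have g4 := r4.cl
  obtain ⟨m1, m2⟩ := mv_size r1.m1
  obtain ⟨m3, m4⟩ := mv_size r2.m1
  obtain ⟨m5, m6⟩ := mv_size r3.m1
  have s1 := (hY.size hS hn ha).1
  have hκ := hn.κ0
  have hκ1 := hn.κ1
  have z1 := r1.m1.pos
  have z2 := sz_nonneg L b1.1
  have z3 := sz_nonneg L b2.1
  have z4 := sz_nonneg L c1.1
  have c1' : sz L b1.1 ≤ 102 / 100 * sz L a.1 := by nlinarith
  have c2' : sz L b2.1 ≤ 110 / 100 * sz L a.1 := by nlinarith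
  have c3' : sz L c1.1 ≤ 102 / 100 * sz L a.1 := by nlinarith
  have h4 := hn.a3
  have h5 := hn.τκ
  have s2 : 99 / 100 * sz L a.1 ≤ (1 - κ) * sz L a.1 :=
    mul_le_mul_of_nonneg_right (by linarith) z1.le
  have s3 : 3 * τ₁ * sz L a.1 ≤ 1 / 100 * sz L a.1 :=
    mul_le_mul_of_nonneg_right (by linarith) z1.le
  linarith

/-- words preserve the pieces -/
theorem mv_word (hS : Sys ρ Z κ τ τ₁ L) (hn : Num k κ τ τ₁ Λ) {w : FreeGroup (Fin k)}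
    (hw : ∀ p : V → Prop, (ct fun x => p x ∧ ¬ p (ρ w x)) ≤ Λ * bd ρ p) {i : V}
    (hi : 0 < sz L i) : Mv κ L (ρ w) i i := by
  have h1 := ct_split (fun x => L x = some i) (fun x => L (ρ w x) = some i)
  have h2 := hw fun x => L x = some i
  have h3 := hS.bdy i
  have h4 : Λ * bd ρ (fun x => L x = some i) ≤ Λ * (τ₁ * sz L i) :=
    mul_le_mul_of_nonneg_left h3 (by linarith [hn.Λ1])
  have h5 : Λ * (τ₁ * sz L i) ≤ κ * sz L i := by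
    rw [← mul_assoc]
    refine mul_le_mul_of_nonneg_right ?_ hi.le
    have h6 := hn.a1
    have h7 := hn.τκ
    have h8 := hn.κ1
    have h9 := hn.κ0
    have h10 := hn.τ₁0
    nlinarith
  have h6 : (1 - κ) * sz L i ≤ ov L (ρ w) i i := by
    unfold ov
    unfold sz at *
    linarith
  exact ⟨hi, h6, h6⟩

/-- the loops at the piece `i` -/
def Lp (i : V) (a : AD V) : Prop := a.1 = i ∧ a.2.1 = i

/-- a permutation of the arrows which describes the action of a central word at the piece `i` -/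
def IsF (κ : ℝ) (L : V → Option V) (Y : Finset (AD V)) (i : V) (β : Equiv.Perm V)
    (φ : Equiv.Perm Y) : Prop :=
  (∀ a : Y, Lp i a.1 → Lp i (φ a).1 ∧ AR κ L 1 β a.1 (φ a).1) ∧ ∀ a : Y, ¬ Lp i a.1 → φ a = a

theorem exists_F (hY : Rep ρ κ τ τ₁ L Y) (hS : Sys ρ Z κ τ τ₁ L) (hn : Num k κ τ τ₁ Λ)
    (hof : WB Λ fun s : Fin k => FreeGroup.of s) {w : FreeGroup (Fin k)}
    (hw : ∀ p : V → Prop, (ct fun x => p x ∧ ¬ p (ρ w x)) ≤ Λ * bd ρ p)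
    (hTw : Tw ρ Z (fun s => FreeGroup.of s) (ρ w)) (i : V) :
    ∃ φ : Equiv.Perm Y, IsF κ L Y i (ρ w) φ := by
  classical
  obtain ⟨φ, hφ⟩ := ext_rel (T := Y) (fun a b => (Lp i a.1 ∧ Lp i b.1 ∧ AR κ L 1 (ρ w) a.1 b.1) ∨
    (¬ Lp i a.1 ∧ a = b)) (by
      rintro a b b' (⟨h1, h2, h3⟩ | ⟨h1, h2⟩) (⟨h4, h5, h6⟩ | ⟨h4, h5⟩)
      · exact Subtype.ext (ar_uniq hY hS hn a.2 b.2 b'.2 h3 h6)
      · exact absurd h1 h4
      · exact absurd h4 h1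
      · rw [← h2, h5]) (by
      rintro a a' b (⟨h1, h2, h3⟩ | ⟨h1, h2⟩) (⟨h4, h5, h6⟩ | ⟨h4, h5⟩)
      · exact Subtype.ext (ar_inj hY hS hn a.2 a'.2 b.2 h3 h6)
      · rw [h5] at h4
        exact absurd h2 h4
      · rw [h2] at h1
        exact absurd h5 h1
      · rw [h2, h5])
  refine ⟨φ, fun a ha => ?_, fun a ha => hφ a a (Or.inr ⟨ha, rfl⟩)⟩
  have hpos := (hY.arw a.1 a.2).pos.1
  have hT1 : Tw ρ Z (fun s => FreeGroup.of s) (1 : Equiv.Perm V) := fun s x _ => rfl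
  obtain ⟨b, hb, hb1, hb2, hb3, -⟩ := ar_exists hY hS hn hof hT1 hTw a.2
    (Mv.one hn.κ0.le hpos) (mv_word hS hn hw (i := a.1.2.1) (hY.arw a.1 a.2).pos.2)
  have hLb : Lp i b := ⟨by rw [hb1]; exact ha.1, by rw [hb2]; exact ha.2⟩
  rw [hφ a ⟨b, hb⟩ (Or.inl ⟨ha, hLb, hb3⟩)]
  exact ⟨hLb, hb3⟩

theorem isF_mul (hY : Rep ρ κ τ τ₁ L Y) (hS : Sys ρ Z κ τ τ₁ L) (hn : Num k κ τ τ₁ Λ) {i : V}
    {α β γ : Equiv.Perm V} {φα φβ φγ : Equiv.Perm Y} (h1 : IsF κ L Y i α φα)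
    (h2 : IsF κ L Y i β φβ) (h3 : IsF κ L Y i γ φγ) (he : ∀ x, ¬ Z x → α (β x) = γ x) :
    φγ = φα * φβ := by
  ext a : 1
  by_cases ha : Lp i a.1
  · obtain ⟨l1, r1⟩ := h2.1 a ha
    obtain ⟨l2, r2⟩ := h1.1 (φβ a) l1
    obtain ⟨l3, r3⟩ := h3.1 a ha
    refine Subtype.ext ?_
    exact (ar_sq hY hS hn (α₁ := 1) (α₂ := α) (β₁ := 1) (β₂ := β) (γ₁ := 1) (γ₂ := γ) (δ₁ := 1)
      (δ₂ := 1) (fun x _ => rfl) (fun x hx => he x hx) a.2 (φα (φβ a)).2 (φγ a).2 r1 r2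
      (ar_one hY hn a.2) r3).symm
  · rw [h3.2 a ha, Equiv.Perm.mul_apply, h2.2 a ha, h1.2 a ha]

theorem isF_ne (hY : Rep ρ κ τ τ₁ L Y) (hS : Sys ρ Z κ τ τ₁ L) (hn : Num k κ τ τ₁ Λ) {i : V}
    (hi : 0 < sz L i) {α : Equiv.Perm V} {φ : Equiv.Perm Y} (h : IsF κ L Y i α φ)
    (hα : ∀ x, ¬ Z x → α x ≠ x) : φ ≠ 1 := by
  intro h1
  obtain ⟨a, ha, ha1, ha2, -⟩ := hY.rep i i _ (one_arw hS hn hi)
  obtain ⟨-, r⟩ := h.1 ⟨a, ha⟩ ⟨ha1, ha2⟩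
  rw [h1] at r
  have f0 := r.cl
  have f3 := ct_Z hY hS hn ha
  have f4 : ct a.2.2 ≤ (ct fun p => a.2.2 p ∧ (Z p.1 ∨ Z p.2)) + fl (pp 1 α) a.2.2 a.2.2 := by
    refine ct_le_add fun p hp => ?_
    by_cases hz : Z p.1 ∨ Z p.2
    · exact Or.inl ⟨hp, hz⟩
    · refine Or.inr ⟨hp, fun h4 => ?_⟩
      have h5 : pp 1 α p = (p.1, α p.2) := rfl
      rw [h5] at h4
      have h6 := (hY.arw a ha).inj1 _ _ h4 hp rfl
      exact hα p.2 (fun h => hz (Or.inr h)) (congrArg Prod.snd h6)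
  have s1 := (hY.size hS hn ha).1
  have f5 : fl (pp 1 α) a.2.2 a.2.2 ≤ sz L a.1 / 20 := f0
  rw [ha1] at s1 f5 f3
  have hκ := hn.κ0
  have hκ1 := hn.κ1
  have h4 := hn.a3
  have h5 := hn.τκ
  have s2 : 99 / 100 * sz L i ≤ (1 - κ) * sz L i :=
    mul_le_mul_of_nonneg_right (by linarith) hi.le
  have s3 : 3 * τ₁ * sz L i ≤ 1 / 100 * sz L i :=
    mul_le_mul_of_nonneg_right (by linarith) hi.le
  linarith

/-- transport of the action by an element of the normaliser -/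
theorem isF_conj (hY : Rep ρ κ τ τ₁ L Y) (hS : Sys ρ Z κ τ τ₁ L) (hn : Num k κ τ τ₁ Λ) {i j : V}
    {g : Equiv.Perm V} (hg : Ok ρ Z Λ g) (hm : Mv κ L g i j) {α β : Equiv.Perm V}
    {φα φβ φ : Equiv.Perm Y} (h1 : IsF κ L Y i α φα) (h2 : IsF κ L Y j β φβ)
    (hφ : ∀ a b : Y, AR κ L g g a.1 b.1 → φ a = b) (he : ∀ x, ¬ Z x → β (g x) = g (α x)) :
    φβ = φ * φα * φ⁻¹ := by
  obtain ⟨w, w', hw, hw', hg1, hg2⟩ := hg
  have hex : ∀ a : Y, Lp i a.1 → Lp j (φ a).1 ∧ AR κ L g g a.1 (φ a).1 := by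
    intro a ha
    obtain ⟨b, hb, hb1, hb2, hb3, -⟩ := ar_exists hY hS hn hw hg1 hg1 a.2 (i' := j) (j' := j)
      (by rw [ha.1]; exact hm) (by rw [ha.2]; exact hm)
    rw [hφ a ⟨b, hb⟩ hb3]
    exact ⟨⟨hb1, hb2⟩, hb3⟩
  have hnot : ∀ a : Y, ¬ Lp i a.1 → ¬ Lp j (φ a).1 := by
    intro a ha hb
    obtain ⟨a', ha', e1, e2, e3⟩ := ar_surj hY hS hn hw' hg2 hg2 (φ a).2 (i := i) (j := i)
      (by rw [hb.1]; exact hm) (by rw [hb.2]; exact hm)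
    have h3 := hφ ⟨a', ha'⟩ (φ a) e3
    have h4 := φ.injective h3
    apply ha
    rw [← h4]
    exact ⟨e1, e2⟩
  have key : φβ * φ = φ * φα := by
    ext a : 1
    by_cases ha : Lp i a.1
    · obtain ⟨l1, r1⟩ := hex a ha
      obtain ⟨l2, r2⟩ := h2.1 (φ a) l1
      obtain ⟨l3, r3⟩ := h1.1 a ha
      obtain ⟨l4, r4⟩ := hex (φα a) l3
      refine Subtype.ext ?_
      exact ar_sq hY hS hn (α₁ := 1) (α₂ := β) (β₁ := g) (β₂ := g) (γ₁ := g) (γ₂ := g) (δ₁ := 1)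
        (δ₂ := α) (fun x _ => rfl) (fun x hx => he x hx) a.2 (φβ (φ a)).2 (φ (φα a)).2 r1 r2 r3 r4
    · rw [Equiv.Perm.mul_apply, Equiv.Perm.mul_apply, h1.2 a ha, h2.2 _ (hnot a ha)]
  rw [← key, mul_inv_cancel_right]

theorem orderOf_conj' {G : Type*} [Group G] (x y : G) : orderOf (x * y * x⁻¹) = orderOf y := by
  have h := orderOf_injective (MulAut.conj x).toMonoidHom (MulAut.conj x).injective y
  simpa using h

end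

end Pool.Agent.N303.KT
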